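import Pool.Agent.Lib.H8.CP.Asym

/-!
# Permutations with prescribed positions of a consecutive pattern

For every pattern `π ∈ S_k` with `k ≥ 3` and every finite set `I` of positive integers,
`p_π(I, n) = c · p_π(n) · (1 + O(ρ^n))` with a constant `0 < ρ < 1`; in particular the relative
error is `O(n^{-α})` for every `α > 0`.
-/

open Filter Asymptotics

namespace Pool.Agent.Results.MP_249059_co.PatternPositions

/-- A consecutive occurrence of `π ∈ S_k` in `w = w_1 w_2 ⋯ w_n ∈ S_n` starts at the index `i`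
(so `1 ≤ i ≤ n - k + 1`): the word `w_i w_{i+1} ⋯ w_{i+k-1}` is order-isomorphic to `π`.
In the code the letters are numbered from `0`, so that `w_{i+a}` (for `0 ≤ a < k`) is
`w ⟨i - 1 + a, _⟩`. -/
def OccursAt {k n : ℕ} (π : Equiv.Perm (Fin k)) (w : Equiv.Perm (Fin n)) (i : ℕ) : Prop :=
  ∃ h : 1 ≤ i ∧ i + k ≤ n + 1, ∀ a b : Fin k,
    w ⟨i - 1 + a, by omega⟩ < w ⟨i - 1 + b, by omega⟩ ↔ π a < π b

/-- `P_π(w)`: the set of all (1-based) indices at which an occurrence of `π` in `w` starts. -/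
def positions {k n : ℕ} (π : Equiv.Perm (Fin k)) (w : Equiv.Perm (Fin n)) : Set ℕ :=
  {i | OccursAt π w i}

/-- `p_π(I, n) = |{w ∈ S_n : P_π(w) = I}|`. -/
noncomputable def p {k : ℕ} (π : Equiv.Perm (Fin k)) (I : Finset ℕ) (n : ℕ) : ℕ :=
  Nat.card {w : Equiv.Perm (Fin n) // positions π w = (I : Set ℕ)}

theorem occursAt_succ {K n : ℕ} (π : Equiv.Perm (Fin (K + 1))) (w : Equiv.Perm (Fin n)) (i : ℕ) :
    OccursAt π w (i + 1) ↔ Pool.Agent.Lib.H8.CP.OccAt π (fun a => w a) i := by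
  unfold OccursAt Pool.Agent.Lib.H8.CP.OccAt
  constructor
  · rintro ⟨h1, h2⟩
    exact ⟨by omega, fun a b => by simpa using h2 a b⟩
  · rintro ⟨h1, h2⟩
    exact ⟨by omega, fun a b => by simpa using h2 a b⟩

theorem p_eq_cnt {K : ℕ} (π : Equiv.Perm (Fin (K + 1))) (I : Finset ℕ) (hI : ∀ i ∈ I, 1 ≤ i)
    (n : ℕ) : p π I n = Pool.Agent.Lib.H8.CP.cnt π {i | i + 1 ∈ I} n := by
  classical
  unfold p Pool.Agent.Lib.H8.CP.cnt
  rw [Nat.card_eq_fintype_card, Fintype.card_subtype]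
  congr 1
  ext w
  simp only [Finset.mem_filter, Finset.mem_univ, true_and, Set.mem_ofPred_eq]
  constructor
  · intro h i
    rw [← occursAt_succ]
    have h1 : (i + 1) ∈ positions π w ↔ (i + 1) ∈ (I : Set ℕ) := by rw [h]
    exact h1
  · intro h
    ext i
    rcases Nat.eq_zero_or_pos i with rfl | hi
    · constructor
      · rintro ⟨⟨h1, _⟩, _⟩; omega
      · intro h1
        have := hI 0 h1
        omega
    · obtain ⟨j, rfl⟩ : ∃ j, i = j + 1 := ⟨i - 1, by omega⟩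
      have h1 := h j
      rw [← occursAt_succ] at h1
      exact h1

theorem pow_isBigO_rpow {ρ : ℝ} (h0 : 0 < ρ) (h1 : ρ < 1) (α : ℝ) :
    (fun n : ℕ => ρ ^ n) =O[atTop] fun n : ℕ => (n : ℝ) ^ (-α) := by
  obtain ⟨m, hm⟩ := exists_nat_ge α
  have h2 : (fun n : ℕ => (n : ℝ) ^ m) =O[atTop] fun n : ℕ => (ρ⁻¹) ^ n :=
    (isLittleO_pow_const_const_pow_of_one_lt m ((one_lt_inv₀ h0).mpr h1)).isBigO
  have h3 : (fun n : ℕ => ((ρ⁻¹) ^ n)⁻¹) =O[atTop] fun n : ℕ => ((n : ℝ) ^ m)⁻¹ := by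
    apply h2.inv_rev
    filter_upwards [eventually_ge_atTop 1] with n hn h4
    exfalso
    have : (0 : ℝ) < (n : ℝ) ^ m := by positivity
    exact this.ne' h4
  have h4 : (fun n : ℕ => ((n : ℝ) ^ m)⁻¹) =O[atTop] fun n : ℕ => (n : ℝ) ^ (-α) := by
    apply IsBigO.of_bound 1
    filter_upwards [eventually_ge_atTop 1] with n hn
    have hn' : (1 : ℝ) ≤ n := by exact_mod_cast hn
    rw [one_mul, Real.norm_of_nonneg (by positivity), Real.norm_of_nonneg (by positivity),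
      ← Real.rpow_natCast, ← Real.rpow_neg (by positivity)]
    exact Real.rpow_le_rpow_of_exponent_le hn' (by linarith)
  refine (IsBigO.congr_left h3 (fun n => ?_)).trans h4
  rw [inv_pow, inv_inv]

/-- **Theorem.** Let `k ≥ 3`, `π ∈ S_k`, and let `I` be a finite set of positive integers. There
are a real number `c` and an error function `ε` with `p_π(I, n) = c · p_π(n) · (1 + ε(n))` for
all `n`, such that `ε(n) = O(ρ^n)` for some `0 < ρ < 1`, and hence `ε(n) = O(n^{-α})` for every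
`α > 0`. -/
theorem result (k : ℕ) (hk : 3 ≤ k) (π : Equiv.Perm (Fin k)) (I : Finset ℕ)
    (hI : ∀ i ∈ I, 1 ≤ i) :
    ∃ (c : ℝ) (ε : ℕ → ℝ),
      (∀ n : ℕ, (p π I n : ℝ) = c * (p π ∅ n : ℝ) * (1 + ε n)) ∧
      (∀ α : ℝ, 0 < α → ε =O[atTop] fun n : ℕ => (n : ℝ) ^ (-α)) ∧
      ∃ ρ : ℝ, 0 < ρ ∧ ρ < 1 ∧ ε =O[atTop] fun n : ℕ => ρ ^ n := by
  obtain ⟨K, rfl⟩ : ∃ K, k = K + 1 := ⟨k - 1, by omega⟩
  have hfin : ({i | i + 1 ∈ I} : Set ℕ).Finite := by
    have : ({i | i + 1 ∈ I} : Set ℕ) = (fun i => i + 1) ⁻¹' (I : Set ℕ) := rfl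
    rw [this]
    exact I.finite_toSet.preimage (add_left_injective 1).injOn
  obtain ⟨c, ε, ρ, h0, h1, h2, h3⟩ := Pool.Agent.Lib.H8.CP.asym_all π (by omega) _ hfin
  refine ⟨c, ε, fun n => ?_, fun α _ => h2.trans (pow_isBigO_rpow h0 h1 α), ρ, h0, h1, h2⟩
  have h4 : ({i | i + 1 ∈ (∅ : Finset ℕ)} : Set ℕ) = ∅ := by ext i; simp
  rw [p_eq_cnt π I hI n, p_eq_cnt π ∅ (by simp) n, h4]
  exact h3 n

end Pool.Agent.Results.MP_249059_co.PatternPositions
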